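import Pool.Agent.helper70.Oct.Defs
import Pool.Agent.helper41.Oct.C1

set_option autoImplicit false

/-!
# Connectedness of the parts of a box (module OCT-C2)
-/

open MvPolynomial Set

namespace Oct

namespace C2

/-- a compact planar set with injective first projection and preconnected image is preconnected -/
theorem preconn_of_compact_inj {K : Set (ℝ × ℝ)} (hK : IsCompact K) (hinj : InjOn Prod.fst K)
    (him : IsPreconnected (Prod.fst '' K)) : IsPreconnected K := by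
  rw [isPreconnected_closed_iff] at him ⊢
  intro t t' ht ht' hcov hne hne'
  have h1 : IsClosed (Prod.fst '' (K ∩ t)) := ((hK.inter_right ht).image continuous_fst).isClosed
  have h2 : IsClosed (Prod.fst '' (K ∩ t')) := ((hK.inter_right ht').image continuous_fst).isClosed
  have h3 : Prod.fst '' K ⊆ Prod.fst '' (K ∩ t) ∪ Prod.fst '' (K ∩ t') := by
    rintro x ⟨p, hp, rfl⟩
    rcases hcov hp with hpt | hpt
    · exact Or.inl ⟨p, ⟨hp, hpt⟩, rfl⟩
    · exact Or.inr ⟨p, ⟨hp, hpt⟩, rfl⟩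
  have h4 : (Prod.fst '' K ∩ Prod.fst '' (K ∩ t)).Nonempty := by
    obtain ⟨p, hp, hpt⟩ := hne
    exact ⟨p.1, ⟨p, hp, rfl⟩, ⟨p, ⟨hp, hpt⟩, rfl⟩⟩
  have h5 : (Prod.fst '' K ∩ Prod.fst '' (K ∩ t')).Nonempty := by
    obtain ⟨p, hp, hpt⟩ := hne'
    exact ⟨p.1, ⟨p, hp, rfl⟩, ⟨p, ⟨hp, hpt⟩, rfl⟩⟩
  obtain ⟨x, -, ⟨p, hp, hpx⟩, ⟨q, hq, hqx⟩⟩ := him _ _ h1 h2 h3 h4 h5
  have hpq : p = q := hinj hp.1 hq.1 (hpx.trans hqx.symm)
  subst hpq
  exact ⟨p, hp.1, hp.2, hq.2⟩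

variable {f : ℝ → ℝ → ℝ} {x0 x1 y0 y1 : ℝ}

/-- positive part, fibrewise increasing function -/
theorem conn_pos (hy : y0 ≤ y1)
    (hm : ∀ x ∈ Icc x0 x1, StrictMonoOn (f x) (Icc y0 y1))
    (hT : IsPreconnected {x : ℝ | x ∈ Icc x0 x1 ∧ 0 < f x y1}) :
    IsPreconnected {p : ℝ × ℝ | p.1 ∈ Icc x0 x1 ∧ p.2 ∈ Icc y0 y1 ∧ 0 < f p.1 p.2} := by
  by_cases hne : {x : ℝ | x ∈ Icc x0 x1 ∧ 0 < f x y1}.Nonempty
  · obtain ⟨x, hx⟩ := hne
    apply isPreconnected_of_forall (x, y1)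
    rintro ⟨x', y'⟩ ⟨hx', hy', hf'⟩
    have hy1 : y1 ∈ Icc y0 y1 := ⟨hy, le_rfl⟩
    have hmono : ∀ y ∈ Icc y' y1, 0 < f x' y := by
      intro y hyy
      rcases eq_or_lt_of_le hyy.1 with h | h
      · rw [← h]; exact hf'
      · exact hf'.trans (hm x' hx' hy' ⟨hy'.1.trans hyy.1, hyy.2⟩ h)
    have hA : IsPreconnected ((fun x : ℝ => (x, y1)) '' {x : ℝ | x ∈ Icc x0 x1 ∧ 0 < f x y1}) :=
      hT.image _ (by fun_prop)
    have hB : IsPreconnected ((fun y : ℝ => (x', y)) '' Icc y' y1) :=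
      isPreconnected_Icc.image _ (by fun_prop)
    have hx'1 : 0 < f x' y1 := hmono y1 ⟨hy'.2, le_rfl⟩
    refine ⟨((fun x : ℝ => (x, y1)) '' {x : ℝ | x ∈ Icc x0 x1 ∧ 0 < f x y1}) ∪
      ((fun y : ℝ => (x', y)) '' Icc y' y1), ?_, Or.inl ⟨x, hx, rfl⟩,
      Or.inr ⟨y', ⟨le_rfl, hy'.2⟩, rfl⟩,
      IsPreconnected.union (x', y1) ⟨x', ⟨hx', hx'1⟩, rfl⟩ ⟨y1, ⟨hy'.2, le_rfl⟩, rfl⟩ hA hB⟩
    rintro p (⟨z, hz, rfl⟩ | ⟨z, hz, rfl⟩)
    · exact ⟨hz.1, hy1, hz.2⟩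
    · exact ⟨hx', ⟨hy'.1.trans hz.1, hz.2⟩, hmono z hz⟩
  · have hem : {p : ℝ × ℝ | p.1 ∈ Icc x0 x1 ∧ p.2 ∈ Icc y0 y1 ∧ 0 < f p.1 p.2} = ∅ := by
      rw [Set.eq_empty_iff_forall_notMem]
      rintro ⟨x', y'⟩ ⟨hx', hy', hf'⟩
      apply hne
      refine ⟨x', hx', ?_⟩
      rcases eq_or_lt_of_le hy'.2 with h | h
      · have h' : y' = y1 := h
        rw [← h']; exact hf'
      · exact lt_trans (show 0 < f x' y' from hf') (hm x' hx' hy' ⟨hy, le_rfl⟩ h)
    rw [hem]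
    exact isPreconnected_empty

/-- negative part, fibrewise increasing function -/
theorem conn_neg (hy : y0 ≤ y1)
    (hm : ∀ x ∈ Icc x0 x1, StrictMonoOn (f x) (Icc y0 y1))
    (hT : IsPreconnected {x : ℝ | x ∈ Icc x0 x1 ∧ f x y0 < 0}) :
    IsPreconnected {p : ℝ × ℝ | p.1 ∈ Icc x0 x1 ∧ p.2 ∈ Icc y0 y1 ∧ f p.1 p.2 < 0} := by
  have h1 := conn_pos (f := fun x y => -f x (-y)) (x0 := x0) (x1 := x1) (y0 := -y1) (y1 := -y0)
    (by linarith)
    (by
      intro x hx y hyy y' hyy' hlt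
      have := hm x hx (a := -y') (b := -y) ⟨by linarith [hyy'.2], by linarith [hyy'.1]⟩
        ⟨by linarith [hyy.2], by linarith [hyy.1]⟩ (by linarith)
      show -f x (-y) < -f x (-y')
      linarith)
    (by
      have he : {x : ℝ | x ∈ Icc x0 x1 ∧ 0 < -f x (- -y0)} = {x : ℝ | x ∈ Icc x0 x1 ∧ f x y0 < 0} := by
        ext x
        simp only [neg_neg, Set.mem_ofPred_eq, Left.neg_pos_iff]
      rw [he]; exact hT)
  have h2 := h1.image (fun p : ℝ × ℝ => (p.1, -p.2)) (by fun_prop)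
  convert h2 using 1
  ext p
  constructor
  · rintro ⟨hp1, hp2, hp3⟩
    refine ⟨(p.1, -p.2), ⟨hp1, ⟨?_, ?_⟩, ?_⟩, ?_⟩
    · show -y1 ≤ -p.2
      linarith [hp2.2]
    · show -p.2 ≤ -y0
      linarith [hp2.1]
    · show 0 < -f p.1 (- -p.2)
      rw [neg_neg]; linarith
    · simp
  · rintro ⟨q, ⟨hq1, hq2, hq3⟩, rfl⟩
    refine ⟨hq1, ⟨?_, ?_⟩, ?_⟩
    · show y0 ≤ -q.2
      linarith [hq2.2]
    · show -q.2 ≤ y1
      linarith [hq2.1]
    · show f q.1 (-q.2) < 0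
      have : 0 < -f q.1 (-q.2) := hq3
      linarith

/-- zero set, fibrewise increasing function -/
theorem conn_zero (hf : Continuous (fun p : ℝ × ℝ => f p.1 p.2)) (hy : y0 ≤ y1)
    (hm : ∀ x ∈ Icc x0 x1, StrictMonoOn (f x) (Icc y0 y1))
    (hT : IsPreconnected {x : ℝ | x ∈ Icc x0 x1 ∧ f x y0 ≤ 0 ∧ 0 ≤ f x y1}) :
    IsPreconnected {p : ℝ × ℝ | p.1 ∈ Icc x0 x1 ∧ p.2 ∈ Icc y0 y1 ∧ f p.1 p.2 = 0} := by
  have hK : IsCompact {p : ℝ × ℝ | p.1 ∈ Icc x0 x1 ∧ p.2 ∈ Icc y0 y1 ∧ f p.1 p.2 = 0} := by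
    have h1 : IsCompact ((Icc x0 x1) ×ˢ (Icc y0 y1)) := isCompact_Icc.prod isCompact_Icc
    have h2 : IsClosed {p : ℝ × ℝ | f p.1 p.2 = 0} := isClosed_eq hf continuous_const
    convert h1.inter_right h2 using 1
    ext p
    simp only [Set.mem_ofPred_eq, mem_inter_iff, mem_prod, and_assoc]
  apply preconn_of_compact_inj hK
  · rintro ⟨x, y⟩ ⟨hx, hyy, hxy⟩ ⟨x', y'⟩ ⟨hx', hyy', hxy'⟩ h
    have h' : x = x' := h
    subst h'
    have : y = y' := (hm x hx).injOn hyy hyy' (show f x y = f x y' from hxy.trans hxy'.symm)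
    rw [this]
  · convert hT using 1
    ext x
    constructor
    · rintro ⟨⟨x', y'⟩, ⟨hx', hy', hf'⟩, rfl⟩
      refine ⟨hx', ?_, ?_⟩
      · have := (hm x' hx').monotoneOn ⟨le_rfl, hy⟩ hy' hy'.1
        exact this.trans (le_of_eq hf')
      · have := (hm x' hx').monotoneOn hy' ⟨hy, le_rfl⟩ hy'.2
        exact (le_of_eq (show f x' y' = 0 from hf').symm).trans this
    · rintro ⟨hx, h0, h1⟩
      have hc : ContinuousOn (f x) (Icc y0 y1) := by
        have : Continuous (fun y : ℝ => f x y) := hf.comp (by fun_prop : Continuous fun y : ℝ => (x, y))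
        exact this.continuousOn
      obtain ⟨y, hyy, hfy⟩ := intermediate_value_Icc hy hc ⟨h0, h1⟩
      exact ⟨(x, y), ⟨hx, hyy, hfy⟩, rfl⟩

/-- exchange of the two coordinates -/
theorem swap_conn {g : ℝ → ℝ → Prop} {x0 x1 y0 y1 : ℝ}
    (h : IsPreconnected {p : ℝ × ℝ | p.1 ∈ Icc x0 x1 ∧ p.2 ∈ Icc y0 y1 ∧ g p.2 p.1}) :
    IsPreconnected {p : ℝ × ℝ | p.1 ∈ Icc y0 y1 ∧ p.2 ∈ Icc x0 x1 ∧ g p.1 p.2} := by
  have h2 := h.image Prod.swap (by fun_prop)
  convert h2 using 1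
  ext p
  constructor
  · rintro ⟨hp1, hp2, hp3⟩
    exact ⟨(p.2, p.1), ⟨hp2, hp1, hp3⟩, rfl⟩
  · rintro ⟨q, ⟨hq1, hq2, hq3⟩, rfl⟩
    exact ⟨hq2, hq1, hq3⟩

/-- strict monotonicity on an interval from a positive derivative -/
theorem strictMono_of_pos {φ ψ : ℝ → ℝ} {y0 y1 : ℝ} (hd : ∀ y, HasDerivAt φ (ψ y) y)
    (hp : ∀ y ∈ Icc y0 y1, 0 < ψ y) : StrictMonoOn φ (Icc y0 y1) := by
  apply strictMonoOn_of_deriv_pos (convex_Icc y0 y1)
  · exact fun y _ => (hd y).continuousAt.continuousWithinAt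
  · intro y hy
    rw [(hd y).deriv]
    exact hp y (interior_subset hy)

/-- convexity on an interval from a positive second derivative -/
theorem convex_of_pos {φ φ' φ'' : ℝ → ℝ} {y0 y1 : ℝ} (hd : ∀ y, HasDerivAt φ (φ' y) y)
    (hd' : ∀ y, HasDerivAt φ' (φ'' y) y)
    (hp : ∀ y ∈ Icc y0 y1, 0 < φ'' y) : ConvexOn ℝ (Icc y0 y1) φ := by
  apply convexOn_of_hasDerivWithinAt2_nonneg (convex_Icc y0 y1) (f' := φ') (f'' := φ'')
  · exact fun y _ => (hd y).continuousAt.continuousWithinAt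
  · exact fun y _ => (hd y).hasDerivWithinAt
  · exact fun y _ => (hd' y).hasDerivWithinAt
  · exact fun y hy => (hp y (interior_subset hy)).le

/-- from `σ g` to `g` -/
theorem conn_sg {g : ℝ → ℝ → ℝ} {A B : Set ℝ} (σ : Bool)
    (hp : IsPreconnected {p : ℝ × ℝ | p.1 ∈ A ∧ p.2 ∈ B ∧ 0 < sg σ * g p.1 p.2})
    (hn : IsPreconnected {p : ℝ × ℝ | p.1 ∈ A ∧ p.2 ∈ B ∧ sg σ * g p.1 p.2 < 0})
    (hz : IsPreconnected {p : ℝ × ℝ | p.1 ∈ A ∧ p.2 ∈ B ∧ sg σ * g p.1 p.2 = 0}) (s : S3) :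
    IsPreconnected {p : ℝ × ℝ | p.1 ∈ A ∧ p.2 ∈ B ∧ s.Has (g p.1 p.2)} := by
  cases σ
  · simp only [sg, Bool.false_eq_true, if_false, neg_mul, one_mul, Left.neg_pos_iff,
      Left.neg_neg_iff, neg_eq_zero] at hp hn hz
    cases s
    · exact hn
    · exact hp
    · exact hz
  · simp only [sg, if_true, one_mul] at hp hn hz
    cases s
    · exact hp
    · exact hn
    · exact hz

/-- all signs occur -/
theorem occ_sg {g : ℝ → ℝ → ℝ} (hg : Continuous (fun p : ℝ × ℝ => g p.1 p.2)) {A : Set ℝ}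
    {y0 y1 : ℝ} (σ : Bool) {t u v : ℝ} (ht : t ∈ A) (hu : u ∈ Icc y0 y1) (hv : v ∈ Icc y0 y1)
    (h1 : 0 < sg σ * g t u) (h2 : sg σ * g t v < 0) (s : S3) :
    ∃ t ∈ A, ∃ u ∈ Icc y0 y1, s.Has (g t u) := by
  have hc : Continuous (fun y : ℝ => sg σ * g t y) :=
    continuous_const.mul (hg.comp (by fun_prop : Continuous fun y : ℝ => (t, y)))
  obtain ⟨w, hw, hw0⟩ : ∃ w ∈ Icc y0 y1, sg σ * g t w = 0 := by
    have h3 := intermediate_value_uIcc (a := u) (b := v) hc.continuousOn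
    have h4 : (0 : ℝ) ∈ uIcc (sg σ * g t u) (sg σ * g t v) := by
      rw [mem_uIcc]; right; exact ⟨h2.le, h1.le⟩
    obtain ⟨w, hw, hw0⟩ := h3 h4
    exact ⟨w, (uIcc_subset_Icc hu hv) hw, hw0⟩
  cases σ
  · simp only [sg, Bool.false_eq_true, if_false, neg_mul, one_mul, Left.neg_pos_iff,
      Left.neg_neg_iff, neg_eq_zero] at h1 h2 hw0
    cases s
    · exact ⟨t, ht, v, hv, h2⟩
    · exact ⟨t, ht, u, hu, h1⟩
    · exact ⟨t, ht, w, hw, hw0⟩
  · simp only [sg, if_true, one_mul] at h1 h2 hw0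
    cases s
    · exact ⟨t, ht, u, hu, h1⟩
    · exact ⟨t, ht, v, hv, h2⟩
    · exact ⟨t, ht, w, hw, hw0⟩

theorem sg_not (b : Bool) : sg (!b) = -sg b := by
  cases b <;> simp [sg]

theorem posOn_iff (σ : ℝ) (P : MvPolynomial (Fin 2) ℝ) (a b c d : ℝ) :
    PosOn (C σ * P) a b c d ↔ ∀ t ∈ Icc a b, ∀ u ∈ Icc c d, 0 < σ * eval ![t, u] P := by
  simp only [PosOn, map_mul, eval_C]

theorem cont_eval (P : MvPolynomial (Fin 2) ℝ) :
    Continuous (fun p : ℝ × ℝ => eval ![p.1, p.2] P) := by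
  refine (MvPolynomial.continuous_eval P).comp ?_
  refine continuous_pi ?_
  intro i
  fin_cases i
  · exact continuous_fst
  · exact continuous_snd

/-- type 1 -/
theorem type1 {P : MvPolynomial (Fin 2) ℝ} {a b lo hi : ℝ} (hlo : lo ≤ hi) (σ : Bool)
    (h0 : ∀ t ∈ Icc a b, sg σ * eval ![t, lo] P < 0)
    (h1 : ∀ t ∈ Icc a b, 0 < sg σ * eval ![t, hi] P)
    (hd : ∀ t ∈ Icc a b, ∀ u ∈ Icc lo hi, 0 < sg σ * eval ![t, u] (pderiv 1 P)) (s : S3) :
    IsPreconnected {p : ℝ × ℝ | p.1 ∈ Icc a b ∧ p.2 ∈ Icc lo hi ∧ s.Has (eval ![p.1, p.2] P)} := by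
  have hc : Continuous (fun p : ℝ × ℝ => sg σ * eval ![p.1, p.2] P) :=
    continuous_const.mul (cont_eval P)
  have hm : ∀ x ∈ Icc a b, StrictMonoOn ((fun t u => sg σ * eval ![t, u] P) x) (Icc lo hi) := by
    intro x hx
    exact strictMono_of_pos (fun y => (hasDerivAt_snd P x y).const_mul (sg σ))
      (fun y hy => hd x hx y hy)
  apply conn_sg (g := fun t u => eval ![t, u] P) σ
  · apply conn_pos hlo hm
    convert isPreconnected_Icc (a := a) (b := b) using 1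
    ext x
    exact ⟨fun h => h.1, fun h => ⟨h, h1 x h⟩⟩
  · apply conn_neg hlo hm
    convert isPreconnected_Icc (a := a) (b := b) using 1
    ext x
    exact ⟨fun h => h.1, fun h => ⟨h, h0 x h⟩⟩
  · apply conn_zero hc hlo hm
    convert isPreconnected_Icc (a := a) (b := b) using 1
    ext x
    exact ⟨fun h => h.1, fun h => ⟨h, (h0 x h).le, (h1 x h).le⟩⟩

/-- types 2, 3: the derivative in `t` has a sign, the function has a sign on one of the vertical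
sides and is convex or concave on the other one (`x`: closed side, `y`: open side) -/
theorem type3 {P : MvPolynomial (Fin 2) ℝ} {a b lo hi : ℝ} (hab : a ≤ b) (σ : Bool)
    (h1 : ∀ u ∈ Icc lo hi, 0 < sg σ * eval ![b, u] P)
    (hd : ∀ t ∈ Icc a b, ∀ u ∈ Icc lo hi, 0 < sg σ * eval ![t, u] (pderiv 0 P))
    (hdd : ∀ u ∈ Icc lo hi, 0 < sg σ * eval ![a, u] (pderiv 1 (pderiv 1 P))) (s : S3) :
    IsPreconnected {p : ℝ × ℝ | p.1 ∈ Icc a b ∧ p.2 ∈ Icc lo hi ∧ s.Has (eval ![p.1, p.2] P)} := by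
  have hc : Continuous (fun p : ℝ × ℝ => sg σ * eval ![p.2, p.1] P) :=
    continuous_const.mul ((cont_eval P).comp (by fun_prop : Continuous fun p : ℝ × ℝ => (p.2, p.1)))
  have hm : ∀ x ∈ Icc lo hi, StrictMonoOn ((fun u t => sg σ * eval ![t, u] P) x) (Icc a b) := by
    intro x hx
    exact strictMono_of_pos (fun y => (hasDerivAt_fst P y x).const_mul (sg σ))
      (fun y hy => hd y hy x hx)
  have hcv : ConvexOn ℝ (Icc lo hi) (fun u => sg σ * eval ![a, u] P) :=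
    convex_of_pos (fun y => (hasDerivAt_snd P a y).const_mul (sg σ))
      (fun y => (hasDerivAt_snd (pderiv 1 P) a y).const_mul (sg σ)) hdd
  apply conn_sg (g := fun t u => eval ![t, u] P) σ
  · apply swap_conn (g := fun t u => 0 < sg σ * eval ![t, u] P)
    apply conn_pos hab hm
    convert isPreconnected_Icc (a := lo) (b := hi) using 1
    ext x
    exact ⟨fun h => h.1, fun h => ⟨h, h1 x h⟩⟩
  · apply swap_conn (g := fun t u => sg σ * eval ![t, u] P < 0)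
    apply conn_neg hab hm
    exact (hcv.convex_lt 0).isPreconnected
  · apply swap_conn (g := fun t u => sg σ * eval ![t, u] P = 0)
    apply conn_zero hc hab hm
    convert (hcv.convex_le 0).isPreconnected using 1
    ext x
    exact ⟨fun h => ⟨h.1, h.2.1⟩, fun h => ⟨h.1, h.2, (h1 x h.1).le⟩⟩

theorem type2 {P : MvPolynomial (Fin 2) ℝ} {a b lo hi : ℝ} (hab : a ≤ b) (σ : Bool)
    (h1 : ∀ u ∈ Icc lo hi, 0 < sg σ * eval ![a, u] P)
    (hd : ∀ t ∈ Icc a b, ∀ u ∈ Icc lo hi, 0 < -sg σ * eval ![t, u] (pderiv 0 P))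
    (hdd : ∀ u ∈ Icc lo hi, 0 < sg σ * eval ![b, u] (pderiv 1 (pderiv 1 P))) (s : S3) :
    IsPreconnected {p : ℝ × ℝ | p.1 ∈ Icc a b ∧ p.2 ∈ Icc lo hi ∧ s.Has (eval ![p.1, p.2] P)} := by
  have hc : Continuous (fun p : ℝ × ℝ => sg (!σ) * eval ![p.2, p.1] P) :=
    continuous_const.mul ((cont_eval P).comp (by fun_prop : Continuous fun p : ℝ × ℝ => (p.2, p.1)))
  have hm : ∀ x ∈ Icc lo hi, StrictMonoOn ((fun u t => sg (!σ) * eval ![t, u] P) x) (Icc a b) := by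
    intro x hx
    refine strictMono_of_pos (fun y => (hasDerivAt_fst P y x).const_mul (sg (!σ)))
      (fun y hy => ?_)
    rw [sg_not]
    exact hd y hy x hx
  have hcv : ConvexOn ℝ (Icc lo hi) (fun u => sg σ * eval ![b, u] P) :=
    convex_of_pos (fun y => (hasDerivAt_snd P b y).const_mul (sg σ))
      (fun y => (hasDerivAt_snd (pderiv 1 P) b y).const_mul (sg σ)) hdd
  have hneg : ∀ t u : ℝ, sg (!σ) * eval ![t, u] P = -(sg σ * eval ![t, u] P) := by
    intro t u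
    rw [sg_not, neg_mul]
  apply conn_sg (g := fun t u => eval ![t, u] P) (!σ)
  · apply swap_conn (g := fun t u => 0 < sg (!σ) * eval ![t, u] P)
    apply conn_pos hab hm
    convert (hcv.convex_lt 0).isPreconnected using 1
    ext x
    simp only [Set.mem_ofPred_eq, hneg, Left.neg_pos_iff]
  · apply swap_conn (g := fun t u => sg (!σ) * eval ![t, u] P < 0)
    apply conn_neg hab hm
    convert isPreconnected_Icc (a := lo) (b := hi) using 1
    ext x
    simp only [Set.mem_ofPred_eq, hneg, Left.neg_neg_iff]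
    exact ⟨fun h => h.1, fun h => ⟨h, h1 x h⟩⟩
  · apply swap_conn (g := fun t u => sg (!σ) * eval ![t, u] P = 0)
    apply conn_zero hc hab hm
    convert (hcv.convex_le 0).isPreconnected using 1
    ext x
    simp only [Set.mem_ofPred_eq, hneg, Left.neg_nonpos_iff, Left.nonneg_neg_iff]
    exact ⟨fun h => ⟨h.1, h.2.2⟩, fun h => ⟨h.1, (h1 x h.1).le, h.2⟩⟩

end C2

theorem box_conn {F : MvPolynomial (Fin 3) ℝ} {col : Column} {b : Box} (h : BoxOK F col b)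
    (hR : 0 < col.R) (hs : 0 < b.s) (s : S3) :
    IsPreconnected {p : ℝ × ℝ | p.1 ∈ Icc (col.a : ℝ) col.b ∧ p.2 ∈ Icc (b.lo : ℝ) b.hi ∧
      s.Has (eval (col.ch.pt p.1 p.2) F)} := by
  have hab : (col.a : ℝ) ≤ col.b := by
    have : col.a ≤ col.b := by simp only [Column.a, Column.b]; omega
    exact_mod_cast this
  have hlo : (b.lo : ℝ) ≤ b.hi := by
    have : b.lo ≤ b.hi := by simp only [Box.lo, Box.hi]; omega
    exact_mod_cast this
  simp only [← eval_pull]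
  simp only [BoxOK, C2.posOn_iff] at h
  generalize col.ch.pull F = P at h ⊢
  obtain ⟨hL, hH, h⟩ := h
  rcases h with ⟨-, -, h0⟩ | ⟨-, hsl, hd⟩ | ⟨-, -, h1, hd, hdd, -⟩ | ⟨-, -, h1, hd, hdd, -⟩
  · have hcase : ({p : ℝ × ℝ | p.1 ∈ Icc (col.a : ℝ) col.b ∧ p.2 ∈ Icc (b.lo : ℝ) b.hi ∧
        s.Has (eval ![p.1, p.2] P)} = Icc (col.a : ℝ) col.b ×ˢ Icc (b.lo : ℝ) b.hi) ∨
        {p : ℝ × ℝ | p.1 ∈ Icc (col.a : ℝ) col.b ∧ p.2 ∈ Icc (b.lo : ℝ) b.hi ∧
        s.Has (eval ![p.1, p.2] P)} = ∅ := by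
      by_cases hsb : s = S3.of b.sl
      · left
        ext p
        simp only [Set.mem_ofPred_eq, mem_prod]
        constructor
        · exact fun hp => ⟨hp.1, hp.2.1⟩
        · intro hp
          refine ⟨hp.1, hp.2, ?_⟩
          have h3 := h0 p.1 hp.1 p.2 hp.2
          rw [hsb]
          cases hb : b.sl
          · rw [hb] at h3
            simp only [sg, Bool.false_eq_true, if_false, neg_mul, one_mul, Left.neg_pos_iff] at h3
            simpa [S3.of, S3.Has] using h3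
          · rw [hb] at h3
            simp only [sg, if_true, one_mul] at h3
            simpa [S3.of, S3.Has] using h3
      · right
        rw [Set.eq_empty_iff_forall_notMem]
        rintro p ⟨hp1, hp2, hp3⟩
        apply hsb
        have h3 := h0 p.1 hp1 p.2 hp2
        cases hb : b.sl
        · rw [hb] at h3
          simp only [sg, Bool.false_eq_true, if_false, neg_mul, one_mul, Left.neg_pos_iff] at h3
          cases s
          · exact absurd hp3 (not_lt.mpr h3.le)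
          · rfl
          · exact absurd hp3 h3.ne
        · rw [hb] at h3
          simp only [sg, if_true, one_mul] at h3
          cases s
          · rfl
          · exact absurd hp3 (not_lt.mpr h3.le)
          · exact absurd hp3 h3.ne'
    rcases hcase with hc | hc
    · rw [hc]
      exact isPreconnected_Icc.prod isPreconnected_Icc
    · rw [hc]
      exact isPreconnected_empty
  · refine C2.type1 hlo b.sh ?_ ?_ hd s
    · intro t ht
      have := hL t ht b.lo ⟨le_rfl, le_rfl⟩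
      rw [hsl, C2.sg_not] at this
      linarith
    · intro t ht
      exact hH t ht b.hi ⟨le_rfl, le_rfl⟩
  · exact C2.type2 hab b.sl (fun u hu => h1 _ ⟨le_rfl, le_rfl⟩ u hu) hd
      (fun u hu => hdd _ ⟨le_rfl, le_rfl⟩ u hu) s
  · exact C2.type3 hab b.sl (fun u hu => h1 _ ⟨le_rfl, le_rfl⟩ u hu) hd
      (fun u hu => hdd _ ⟨le_rfl, le_rfl⟩ u hu) s

theorem box_act {F : MvPolynomial (Fin 3) ℝ} {col : Column} {b : Box} (h : BoxOK F col b)
    (hR : 0 < col.R) (hs : 0 < b.s) (s : S3) :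
    (∃ t ∈ Icc (col.a : ℝ) col.b, ∃ u ∈ Icc (b.lo : ℝ) b.hi,
      s.Has (eval (col.ch.pt t u) F)) ↔ b.Act s := by
  have hab : (col.a : ℝ) ≤ col.b := by
    have : col.a ≤ col.b := by simp only [Column.a, Column.b]; omega
    exact_mod_cast this
  have hlo : (b.lo : ℝ) ≤ b.hi := by
    have : b.lo ≤ b.hi := by simp only [Box.lo, Box.hi]; omega
    exact_mod_cast this
  have hc1 : (b.lo : ℝ) ≤ b.c := by
    have : b.lo ≤ b.c := by simp only [Box.lo]; omega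
    exact_mod_cast this
  have hc2 : (b.c : ℝ) ≤ b.hi := by
    have : b.c ≤ b.hi := by simp only [Box.hi]; omega
    exact_mod_cast this
  simp only [← eval_pull]
  simp only [BoxOK, C2.posOn_iff] at h
  generalize col.ch.pull F = P at h ⊢
  obtain ⟨hL, hH, h⟩ := h
  have hcont := C2.cont_eval P
  rcases h with ⟨hty, -, h0⟩ | ⟨hty, hsl, hd⟩ | ⟨hty, -, h1, hd, hdd, hin⟩ |
    ⟨hty, -, h1, hd, hdd, hin⟩
  · constructor
    · rintro ⟨t, ht, u, hu, hp3⟩ -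
      have h3 := h0 t ht u hu
      cases hb : b.sl
      · rw [hb] at h3
        simp only [sg, Bool.false_eq_true, if_false, neg_mul, one_mul, Left.neg_pos_iff] at h3
        cases s
        · exact absurd hp3 (not_lt.mpr h3.le)
        · rfl
        · exact absurd hp3 h3.ne
      · rw [hb] at h3
        simp only [sg, if_true, one_mul] at h3
        cases s
        · rfl
        · exact absurd hp3 (not_lt.mpr h3.le)
        · exact absurd hp3 h3.ne'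
    · intro hact
      have hsb := hact hty
      refine ⟨col.a, ⟨le_rfl, hab⟩, b.lo, ⟨le_rfl, hlo⟩, ?_⟩
      have h3 := h0 col.a ⟨le_rfl, hab⟩ b.lo ⟨le_rfl, hlo⟩
      rw [hsb]
      cases hb : b.sl
      · rw [hb] at h3
        simp only [sg, Bool.false_eq_true, if_false, neg_mul, one_mul, Left.neg_pos_iff] at h3
        simpa [S3.of, S3.Has] using h3
      · rw [hb] at h3
        simp only [sg, if_true, one_mul] at h3
        simpa [S3.of, S3.Has] using h3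
  · refine iff_of_true ?_ (fun h => by omega)
    have e1 := hL col.a ⟨le_rfl, hab⟩ b.lo ⟨le_rfl, le_rfl⟩
    have e2 := hH col.a ⟨le_rfl, hab⟩ b.hi ⟨le_rfl, le_rfl⟩
    rw [hsl, C2.sg_not] at e1
    exact C2.occ_sg hcont b.sh (⟨le_rfl, hab⟩ : (col.a : ℝ) ∈ Icc (col.a : ℝ) col.b)
      (u := b.hi) (v := b.lo) ⟨hlo, le_rfl⟩ ⟨le_rfl, hlo⟩ e2 (by linarith) s
  · refine iff_of_true ?_ (fun h => by omega)
    have e1 := hL col.b ⟨hab, le_rfl⟩ b.lo ⟨le_rfl, le_rfl⟩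
    have e2 := hin col.b ⟨le_rfl, le_rfl⟩ b.c ⟨le_rfl, le_rfl⟩
    exact C2.occ_sg hcont b.sl (⟨hab, le_rfl⟩ : (col.b : ℝ) ∈ Icc (col.a : ℝ) col.b)
      (u := b.lo) (v := b.c) ⟨le_rfl, hlo⟩ ⟨hc1, hc2⟩ e1 (by linarith) s
  · refine iff_of_true ?_ (fun h => by omega)
    have e1 := hL col.a ⟨le_rfl, hab⟩ b.lo ⟨le_rfl, le_rfl⟩
    have e2 := hin col.a ⟨le_rfl, le_rfl⟩ b.c ⟨le_rfl, le_rfl⟩
    exact C2.occ_sg hcont b.sl (⟨le_rfl, hab⟩ : (col.a : ℝ) ∈ Icc (col.a : ℝ) col.b)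
      (u := b.lo) (v := b.c) ⟨le_rfl, hlo⟩ ⟨hc1, hc2⟩ e1 (by linarith) s

end Oct
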